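import Mathlib
import Pool.Agent.L7h56.IS.DesB

/-! Project IT: the classes, with the condition at the primes which divide `b` and `c`. -/

set_option autoImplicit false

namespace Pool.Agent.L7h56.IT

open WeierstrassCurve WeierstrassCurve.Affine Pool.Agent.V11306.CM Pool.Agent.L7h56.IS

/-- the condition at the primes which divide `c` exactly once and not `b` -/
def CA (a b d : ℤ) : Prop := ∀ p : ℕ, p.Prime → Odd p → (p : ℤ) ∣ a ^ 2 - 4 * b →
  ¬ (p : ℤ) ^ 2 ∣ a ^ 2 - 4 * b → ¬ (p : ℤ) ∣ b → jacobiSym d p = 1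

/-- the condition at the primes which divide `a` and `b` -/
def CB (a b d : ℤ) : Prop := ∀ p : ℕ, p.Prime → (p : ℤ) ∣ a → (p : ℤ) ∣ b → ¬ (p : ℤ) ^ 2 ∣ b →
  (¬ (p : ℤ) ∣ d → jacobiSym d p = 1) ∧ ((p : ℤ) ∣ d → jacobiSym (b / d) p = 1)

lemma not_dvd_div {b d : ℤ} {p : ℕ} (hdb : d ∣ b) (hp2 : ¬ (p : ℤ) ^ 2 ∣ b) (hd : (p : ℤ) ∣ d) :
    ¬ (p : ℤ) ∣ b / d := by
  intro h
  apply hp2
  obtain ⟨k, hk⟩ := hdb
  rw [hk]
  by_cases hd0 : d = 0
  · rw [hd0]; simp
  rw [hk, Int.mul_ediv_cancel_left _ hd0] at h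
  rw [sq]
  exact mul_dvd_mul hd h

/-- the integral form: `r (r² + a r s + b s²) s = w²`, `r, s` coprime, `s > 0` -/
lemma cls_int3 (a b r s w : ℤ) (hr : r ≠ 0) (hs : 0 < s) (hrs : IsCoprime r s)
    (h : w ^ 2 = s * (r * (r ^ 2 + a * r * s + b * s ^ 2))) :
    ∃ d M : ℤ, Squarefree d ∧ d ∣ b ∧ r * s = d * M ^ 2 ∧ M ≠ 0 ∧ CA a b d ∧ CB a b d := by
  have hcop : IsCoprime s (r * (r ^ 2 + a * r * s + b * s ^ 2)) := by
    apply IsCoprime.mul_right hrs.symm
    have h1 : IsCoprime s (r ^ 2) := hrs.symm.pow_right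
    have h2 : r ^ 2 + a * r * s + b * s ^ 2 = r ^ 2 + s * (a * r + b * s) := by ring
    rw [h2]
    exact h1.add_mul_left_right _
  -- `s` is a square
  obtain ⟨e, he⟩ := Int.sq_of_isCoprime hcop (c := w) (by rw [h])
  have hse : s = e ^ 2 := by
    rcases he with he | he
    · exact he
    · exfalso; have := sq_nonneg e; omega
  have he0 : e ≠ 0 := by rintro rfl; rw [hse] at hs; simp at hs
  -- the second factor is a square too
  obtain ⟨v, hv⟩ := Int.sq_of_isCoprime hcop.symm (c := w) (by rw [h]; ring)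
  have hv' : r * (r ^ 2 + a * r * s + b * s ^ 2) = v ^ 2 := by
    rcases hv with hv | hv
    · exact hv
    · have h3 : 0 ≤ s * (r * (r ^ 2 + a * r * s + b * s ^ 2)) := by rw [← h]; positivity
      have h4 : 0 ≤ r * (r ^ 2 + a * r * s + b * s ^ 2) := nonneg_of_mul_nonneg_right h3 hs
      have h5 : v ^ 2 = 0 := by
        have := sq_nonneg v
        rw [hv] at h4; omega
      rw [hv, h5]; simp
  obtain ⟨d, M, hd, hrd, hM⟩ := exists_sqfree r hr
  have hd0 : d ≠ 0 := hd.ne_zero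
  -- `v = M v₁`
  have hMv : M ∣ v := by
    rw [← Int.pow_dvd_pow_iff (n := 2) (by norm_num)]
    rw [← hv', hrd]
    exact ⟨d * ((d * M ^ 2) ^ 2 + a * (d * M ^ 2) * s + b * s ^ 2), by ring⟩
  obtain ⟨v₁, rfl⟩ := hMv
  have h6 : d * (r ^ 2 + a * r * s + b * s ^ 2) = v₁ ^ 2 := by
    have : M ^ 2 * (d * (r ^ 2 + a * r * s + b * s ^ 2)) = M ^ 2 * v₁ ^ 2 := by
      have h7 : M ^ 2 * (d * (r ^ 2 + a * r * s + b * s ^ 2)) =
        (d * M ^ 2) * (r ^ 2 + a * r * s + b * s ^ 2) := by ring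
      rw [h7, ← hrd, hv']; ring
    exact mul_left_cancel₀ (pow_ne_zero 2 hM) this
  have hdv : d ∣ v₁ := (hd.dvd_pow_iff_dvd two_ne_zero).mp ⟨_, h6.symm⟩
  obtain ⟨N, rfl⟩ := hdv
  have h8 : r ^ 2 + a * r * s + b * s ^ 2 = d * N ^ 2 := by
    have : d * (r ^ 2 + a * r * s + b * s ^ 2) = d * (d * N ^ 2) := by rw [h6]; ring
    exact mul_left_cancel₀ hd0 this
  have hdr : d ∣ r := ⟨M ^ 2, hrd⟩
  have hdb : d ∣ b := by
    have h9 : d ∣ b * s ^ 2 := by
      have : b * s ^ 2 = d * N ^ 2 - r * (r + a * s) := by rw [← h8]; ring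
      rw [this]
      exact dvd_sub (Dvd.intro _ rfl) (hdr.mul_right _)
    have h10 : IsCoprime d (s ^ 2) := (hrs.of_isCoprime_of_dvd_left hdr).pow_right
    exact h10.dvd_of_dvd_mul_right h9
  refine ⟨d, M * e, hd, hdb, ?_, mul_ne_zero hM he0, ?_, ?_⟩
  · rw [hrd, hse]; ring
  · intro p hp hodd hpc hpc2 hpb
    have hpP : Prime (p : ℤ) := Nat.prime_iff_prime_int.mp hp
    have hp2 : ¬ (p : ℤ) ∣ 2 := by
      intro h
      have h1 : p ∣ 2 := by exact_mod_cast h
      have := (Nat.prime_dvd_prime_iff_eq hp Nat.prime_two).mp h1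
      rw [this] at hodd
      exact absurd hodd (by decide)
    have hpd : ¬ (p : ℤ) ∣ d := fun h => hpb (h.trans hdb)
    have key : 4 * (d * N ^ 2) = (2 * r + a * s) ^ 2 - (a ^ 2 - 4 * b) * s ^ 2 := by
      rw [← h8]; ring
    have hpN : ¬ (p : ℤ) ∣ N := by
      intro hN
      have h1 : (p : ℤ) ∣ 2 * r + a * s := by
        apply hpP.dvd_of_dvd_pow (n := 2)
        have : (2 * r + a * s) ^ 2 = 4 * d * N * N + (a ^ 2 - 4 * b) * s ^ 2 := by
          linear_combination -key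
        rw [this]
        exact dvd_add (hN.mul_left _) (hpc.mul_right _)
      have h2 : (p : ℤ) ^ 2 ∣ (a ^ 2 - 4 * b) * s ^ 2 := by
        have : (a ^ 2 - 4 * b) * s ^ 2 = (2 * r + a * s) ^ 2 - 4 * d * N ^ 2 := by
          linear_combination key
        rw [this]
        exact dvd_sub (pow_dvd_pow_of_dvd h1 2) ((pow_dvd_pow_of_dvd hN 2).mul_left _)
      have h3 : (p : ℤ) ∣ s := by
        by_contra hps
        apply hpc2
        have h4 : IsCoprime ((p : ℤ) ^ 2) (s ^ 2) :=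
          ((Prime.coprime_iff_not_dvd hpP).mpr hps).pow
        exact h4.dvd_of_dvd_mul_right h2
      have h4 : (p : ℤ) ∣ 2 * r := by
        have : 2 * r = (2 * r + a * s) - a * s := by ring
        rw [this]
        exact dvd_sub h1 (h3.mul_left _)
      rcases hpP.dvd_or_dvd h4 with h5 | h5
      · exact hp2 h5
      · exact hpP.not_isUnit (hrs.isUnit_of_dvd' h5 h3)
    apply jac_of_sq p hp d (2 * N) (2 * r + a * s) (hpP.not_dvd_mul hp2 hpN) ?_ hpd
    have : d * (2 * N) ^ 2 - (2 * r + a * s) ^ 2 = -((a ^ 2 - 4 * b) * s ^ 2) := by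
      linear_combination key
    rw [this]
    exact (hpc.mul_right _).neg_right
  · intro p hp hpa hpb hpb2
    have hpP : Prime (p : ℤ) := Nat.prime_iff_prime_int.mp hp
    obtain ⟨k, hk⟩ := hdb
    have hbd : b / d = k := by rw [hk, Int.mul_ediv_cancel_left _ hd0]
    -- `N² = d M⁴ + a M² s + k s²`
    have key : N ^ 2 = d * M ^ 4 + a * M ^ 2 * s + k * s ^ 2 := by
      apply mul_left_cancel₀ hd0
      rw [← h8, hrd, hk]; ring
    refine ⟨fun hpd => ?_, fun hpd => ?_⟩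
    · have hpk : (p : ℤ) ∣ k := by
        rw [hk] at hpb
        exact (hpP.dvd_or_dvd hpb).resolve_left hpd
      have hpM : ¬ (p : ℤ) ∣ M := by
        intro hM'
        have hps : ¬ (p : ℤ) ∣ s := fun hs' =>
          hpP.not_isUnit (hrs.isUnit_of_dvd' (by rw [hrd]; exact (hM'.pow two_ne_zero).mul_left _) hs')
        have hN : (p : ℤ) ∣ N := by
          apply hpP.dvd_of_dvd_pow (n := 2)
          rw [key]
          refine dvd_add (dvd_add ?_ ?_) (hpk.mul_right _)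
          · exact (hM'.pow (by norm_num)).mul_left _
          · exact (hpa.mul_right _).mul_right _
        have h1 : (p : ℤ) ^ 2 ∣ k * s ^ 2 := by
          have : k * s ^ 2 = N ^ 2 - M ^ 2 * (d * M ^ 2 + a * s) := by rw [key]; ring
          rw [this]
          exact dvd_sub (pow_dvd_pow_of_dvd hN 2) ((pow_dvd_pow_of_dvd hM' 2).mul_right _)
        have h2 : IsCoprime ((p : ℤ) ^ 2) (s ^ 2) :=
          ((Prime.coprime_iff_not_dvd hpP).mpr hps).pow
        apply hpb2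
        rw [hk]
        exact (h2.dvd_of_dvd_mul_right h1).mul_left _
      apply jac_of_sq p hp d (M ^ 2) N (fun h => hpM (hpP.dvd_of_dvd_pow h)) ?_ hpd
      have : d * (M ^ 2) ^ 2 - N ^ 2 = -(a * (M ^ 2 * s) + k * s ^ 2) := by rw [key]; ring
      rw [this]
      exact (dvd_add (hpa.mul_right _) (hpk.mul_right _)).neg_right
    · rw [hbd]
      have hpk : ¬ (p : ℤ) ∣ k := by
        have := not_dvd_div ⟨k, hk⟩ hpb2 hpd
        rwa [hbd] at this
      have hps : ¬ (p : ℤ) ∣ s := by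
        intro hs'
        have hN : (p : ℤ) ∣ N := by
          apply hpP.dvd_of_dvd_pow (n := 2)
          rw [key]
          refine dvd_add (dvd_add (hpd.mul_right _) (hs'.mul_left _)) ?_
          exact (hs'.pow two_ne_zero).mul_left _
        have h1 : (p : ℤ) ^ 2 ∣ d * M ^ 4 := by
          have : d * M ^ 4 = N ^ 2 - (a * s) * M ^ 2 - k * s ^ 2 := by rw [key]; ring
          rw [this]
          refine dvd_sub (dvd_sub (pow_dvd_pow_of_dvd hN 2) ?_) ?_
          · rw [sq]; exact (mul_dvd_mul hpa hs').mul_right _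
          · exact (pow_dvd_pow_of_dvd hs' 2).mul_left _
        have hpM : (p : ℤ) ∣ M := by
          by_contra hM'
          have h2 : IsCoprime ((p : ℤ) ^ 2) (M ^ 4) :=
            ((Prime.coprime_iff_not_dvd hpP).mpr hM').pow
          have h3 : (p : ℤ) ^ 2 ∣ d := h2.dvd_of_dvd_mul_right h1
          rw [sq] at h3
          exact hpP.not_isUnit (hd _ h3)
        exact hpP.not_isUnit (hrs.isUnit_of_dvd' (by rw [hrd]; exact (hpM.pow two_ne_zero).mul_left _) hs')
      apply jac_of_sq p hp k s N hps ?_ hpk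
      have : k * s ^ 2 - N ^ 2 = -(d * M ^ 4 + a * (M ^ 2 * s)) := by rw [key]; ring
      rw [this]
      exact (dvd_add (hpd.mul_right _) (hpa.mul_right _)).neg_right

/-- the class of a point -/
lemma exists_cls3 (a b : ℤ) (hb : b ≠ 0) (P : (E (a : ℚ) (b : ℚ)).Point) :
    ∃ d : ℤ, Squarefree d ∧ d ∣ b ∧ IsSquare ((d : ℚ) * fx (a : ℚ) (b : ℚ) P) ∧
      CA a b d ∧ CB a b d := by
  rcases P with _ | ⟨x, y, h⟩
  · refine ⟨1, squarefree_one, one_dvd _, ⟨1, ?_⟩, ?_, ?_⟩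
    · rw [← Point.zero_def, fx_zero]; simp
    · intro p _ _ _ _ _
      exact jacobiSym.one_left p
    · intro p hp _ _ _
      refine ⟨fun _ => jacobiSym.one_left p, fun h => ?_⟩
      exact absurd (isUnit_of_dvd_one h) (Nat.prime_iff_prime_int.mp hp).not_isUnit
  by_cases hx : x = 0
  · rw [fx_x0 h hx]
    obtain ⟨d, M, hd, hbd, hM⟩ := exists_sqfree b hb
    refine ⟨d, hd, ⟨_, hbd⟩, ⟨(d * M : ℚ), ?_⟩, ?_, ?_⟩
    · rw [hbd]; push_cast; ring
    · intro p hp hodd hpc _ hpb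
      have hpP : Prime (p : ℤ) := Nat.prime_iff_prime_int.mp hp
      have hp2 : ¬ (p : ℤ) ∣ 2 := by
        intro h
        have h1 : p ∣ 2 := by exact_mod_cast h
        have := (Nat.prime_dvd_prime_iff_eq hp Nat.prime_two).mp h1
        rw [this] at hodd
        exact absurd hodd (by decide)
      have hpM : ¬ (p : ℤ) ∣ M := by
        intro h
        apply hpb
        rw [hbd]
        exact (h.pow two_ne_zero).mul_left _
      have hpd : ¬ (p : ℤ) ∣ d := fun h => hpb (h.trans ⟨_, hbd⟩)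
      apply jac_of_sq p hp d (2 * M) a (hpP.not_dvd_mul hp2 hpM) ?_ hpd
      have : d * (2 * M) ^ 2 - a ^ 2 = -(a ^ 2 - 4 * b) := by rw [hbd]; ring
      rw [this]
      exact hpc.neg_right
    · intro p hp _ hpb hpb2
      have hpP : Prime (p : ℤ) := Nat.prime_iff_prime_int.mp hp
      have hd0 : d ≠ 0 := hd.ne_zero
      have hpM : ¬ (p : ℤ) ∣ M := by
        intro h
        apply hpb2
        rw [hbd]
        exact (pow_dvd_pow_of_dvd h 2).mul_left _
      have hpd : (p : ℤ) ∣ d := by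
        rw [hbd] at hpb
        rcases hpP.dvd_or_dvd hpb with h | h
        · exact h
        · exact absurd (hpP.dvd_of_dvd_pow h) hpM
      refine ⟨fun h => absurd hpd h, fun _ => ?_⟩
      have e1 : b / d = M ^ 2 := by rw [hbd, Int.mul_ediv_cancel_left _ hd0]
      rw [e1]
      have hM2 : ¬ (p : ℤ) ∣ M ^ 2 := fun h => hpM (hpP.dvd_of_dvd_pow h)
      apply jac_of_sq p hp (M ^ 2) 1 M ?_ ?_ hM2
      · intro h
        exact hpP.not_isUnit (isUnit_of_dvd_one h)
      · have : M ^ 2 * 1 ^ 2 - M ^ 2 = 0 := by ring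
        rw [this]
        exact dvd_zero _
  · have he := (E_eq (a : ℚ) (b : ℚ) x y).mp h.1
    set r : ℤ := x.num with hr
    set s : ℤ := (x.den : ℤ) with hs
    have hs0 : 0 < s := by rw [hs]; exact_mod_cast x.pos
    have hsq : (s : ℚ) ≠ 0 := by exact_mod_cast hs0.ne'
    have hxr : x * s = r := by rw [hr, hs]; exact_mod_cast Rat.mul_den_eq_num x
    have hr0 : r ≠ 0 := Rat.num_ne_zero.mpr hx
    have hcop : IsCoprime r s := by
      rw [hr, hs, Int.isCoprime_iff_gcd_eq_one]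
      exact x.reduced
    have hw : (y * s ^ 2) ^ 2 = ((s * (r * (r ^ 2 + a * r * s + b * s ^ 2)) : ℤ) : ℚ) := by
      push_cast
      rw [← hxr]
      linear_combination (s : ℚ) ^ 4 * he
    obtain ⟨w, hw'⟩ : ∃ w : ℤ, w ^ 2 = s * (r * (r ^ 2 + a * r * s + b * s ^ 2)) := by
      have h1 : IsSquare (((s * (r * (r ^ 2 + a * r * s + b * s ^ 2)) : ℤ) : ℚ)) :=
        ⟨y * s ^ 2, by rw [← hw]; ring⟩
      rw [Rat.isSquare_intCast_iff] at h1
      obtain ⟨w, hw⟩ := h1
      exact ⟨w, by rw [hw]; ring⟩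
    obtain ⟨d, M, hd, hdb, hrs, hM, hj⟩ := cls_int3 a b r s w hr0 hs0 hcop hw'
    refine ⟨d, hd, hdb, ?_, hj⟩
    rw [fx_x h hx]
    refine ⟨(d * M / s : ℚ), ?_⟩
    have h1 : (r : ℚ) * s = d * M ^ 2 := by exact_mod_cast hrs
    have h2 : x = r / s := by rw [eq_div_iff hsq]; exact hxr
    rw [h2]
    field_simp
    linear_combination (d : ℚ) * h1

lemma exists_cls3' (a b : ℤ) (hb : b ≠ 0) (α β : ℚ) (hα : α = a) (hβ : β = b) (P : (E α β).Point) :
    ∃ d : ℤ, Squarefree d ∧ d ∣ b ∧ IsSquare ((d : ℚ) * fx α β P) ∧ CA a b d ∧ CB a b d := by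
  subst hα hβ
  exact exists_cls3 a b hb P

end Pool.Agent.L7h56.IT
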