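import Mathlib
import Pool.Agent.L7h19.IT.Stm
import Pool.Agent.L7h56.IS.DesC
import Pool.Agent.L7h56.IT.DesD

/-! Project IT: the number of classes. -/

set_option autoImplicit false

namespace Pool.Agent.L7h56.IT

open Finset Pool.Agent.L7h19.IT Pool.Agent.L7h56.IS
open scoped symmDiff

lemma jac_sq {p q : ℕ} (hp : p.Prime) (hq : q.Prime) (h : q ≠ p) :
    jacobiSym (q : ℤ) p * jacobiSym (q : ℤ) p = 1 := by
  rw [← sq]
  apply jacobiSym.sq_one
  rw [Int.gcd_natCast_natCast, ← Nat.coprime_iff_gcd_eq_one, Nat.coprime_primes hq hp]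
  exact h

/-- the number of sets with given products -/
lemma card_fib3 (ε : ℕ → ℤ) (m n : ℕ) (hm : Squarefree m)
    (hε : ∀ p : ℕ, p.Prime → p ∣ m → p ∣ n → ε p * ε p = 1)
    (κ : ℕ → ℤ) (F : Finset (Finset ℕ)) (hF : ∀ A ∈ F, A ⊆ m.primeFactors)
    (hJ : ∀ A ∈ F, ∀ p ∈ n.primeFactors, ∏ q ∈ A, lam ε p q = κ p) :
    F.card ≤ N3 ε m n := by
  classical
  rcases F.eq_empty_or_nonempty with h0 | ⟨B, hB⟩
  · rw [h0]; simp
  have hm0 : m ≠ 0 := hm.ne_zero
  unfold N3
  have hpr : ∀ A ⊆ m.primeFactors, ∀ q ∈ A, q.Prime := fun A hA q hq =>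
    Nat.prime_of_mem_primeFactors (hA hq)
  have hsub : ∀ C ∈ F, C ∆ B ⊆ m.primeFactors := by
    intro C hC q hq
    rcases Finset.mem_symmDiff.mp hq with h | h
    · exact hF C hC h.1
    · exact hF B hB h.1
  have e : ∀ C ∈ F, (∏ q ∈ (C ∆ B), q).primeFactors = C ∆ B := by
    intro C hC
    apply Nat.primeFactors_prod
    intro q hq
    exact Nat.prime_of_mem_primeFactors (hsub C hC hq)
  apply Finset.card_le_card_of_injOn (fun A => ∏ q ∈ (A ∆ B), q)
  · intro A hA
    have hA' := hF A hA
    have hB' := hF B hB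
    have hs := hsub A hA
    rw [Finset.mem_coe, Finset.mem_filter]
    refine ⟨?_, ?_⟩
    · rw [Nat.mem_divisors]
      refine ⟨?_, hm0⟩
      calc ∏ q ∈ A ∆ B, q ∣ ∏ q ∈ m.primeFactors, q := Finset.prod_dvd_prod_of_subset _ _ _ hs
        _ = m := prod_pf hm
    · intro p hp
      have hee := e A hA
      simp only at hee ⊢
      rw [hee]
      have h1 := hJ A hA p hp
      have h2 := hJ B hB p hp
      have hone : ∀ q ∈ m.primeFactors, lam ε p q * lam ε p q = 1 := by
        intro q hq
        have hp' := Nat.prime_of_mem_primeFactors hp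
        have hq' := Nat.prime_of_mem_primeFactors hq
        unfold lam
        by_cases hqp : q = p
        · rw [if_pos hqp]
          exact hε p hp' (hqp ▸ Nat.dvd_of_mem_primeFactors hq) (Nat.dvd_of_mem_primeFactors hp)
        · rw [if_neg hqp]
          exact jac_sq hp' hq' hqp
      have e1 : (∏ q ∈ A, lam ε p q) * (∏ q ∈ B, lam ε p q) = ∏ q ∈ A ∆ B, lam ε p q := by
        have hA1 : ∏ q ∈ A, lam ε p q =
            (∏ q ∈ A \ B, lam ε p q) * ∏ q ∈ A ∩ B, lam ε p q := by
          rw [← Finset.prod_union (Finset.disjoint_sdiff_inter A B), Finset.sdiff_union_inter]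
        have hB1 : ∏ q ∈ B, lam ε p q =
            (∏ q ∈ B \ A, lam ε p q) * ∏ q ∈ A ∩ B, lam ε p q := by
          rw [Finset.inter_comm A B, ← Finset.prod_union (Finset.disjoint_sdiff_inter B A),
            Finset.sdiff_union_inter]
        have hAB : (∏ q ∈ A ∩ B, lam ε p q) * (∏ q ∈ A ∩ B, lam ε p q) = 1 := by
          rw [← Finset.prod_mul_distrib]
          exact Finset.prod_eq_one fun q hq => hone q (hA' (Finset.mem_inter.mp hq).1)
        have hS : ∏ q ∈ A ∆ B, lam ε p q =
            (∏ q ∈ A \ B, lam ε p q) * ∏ q ∈ B \ A, lam ε p q := by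
          rw [← Finset.prod_union]
          · rfl
          · rw [Finset.disjoint_left]
            intro q h3 h4
            exact (Finset.mem_sdiff.mp h3).2 (Finset.mem_sdiff.mp h4).1
        rw [hA1, hB1, hS]
        linear_combination ((∏ q ∈ A \ B, lam ε p q) * ∏ q ∈ B \ A, lam ε p q) * hAB
      have hB2 : (∏ q ∈ B, lam ε p q) * (∏ q ∈ B, lam ε p q) = 1 := by
        rw [← Finset.prod_mul_distrib]
        exact Finset.prod_eq_one fun q hq => hone q (hB' hq)
      rw [← e1, h1, ← h2, hB2]
  · intro A hA A' hA' hh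
    have hh' : ∏ q ∈ (A ∆ B), q = ∏ q ∈ (A' ∆ B), q := hh
    have h1 : A ∆ B = A' ∆ B := by rw [← e A hA, ← e A' hA', hh']
    exact symmDiff_left_injective B h1

lemma eq_of_mul_one {x y : ℤ} (h : x * y = 1) : y = x := by
  rcases Int.eq_one_or_neg_one_of_mul_eq_one h with h1 | h1
  · rw [h1] at h ⊢; linarith
  · rw [h1] at h ⊢; linarith

/-- the number of classes -/
lemma exists_S3 (b : ℤ) (ε : ℕ → ℤ) (m n : ℕ) (hb : b ≠ 0) (hm : Squarefree m)
    (h1m : ∀ p : ℕ, p.Prime → p ∣ m → (p : ℤ) ∣ b ∧ ¬ (p : ℤ) ^ 2 ∣ b)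
    (hε : ∀ p : ℕ, p.Prime → p ∣ m → p ∣ n → ε p = jacobiSym (b / p) p) :
    ∃ S : Finset ℤ, (∀ d : ℤ, Squarefree d → d ∣ b →
      (∀ p ∈ n.primeFactors, ¬ p ∣ m → jacobiSym d p = 1) →
      (∀ p ∈ n.primeFactors, p ∣ m → (¬ (p : ℤ) ∣ d → jacobiSym d p = 1) ∧
        ((p : ℤ) ∣ d → jacobiSym (b / d) p = 1)) → d ∈ S) ∧
      S.card ≤ 2 ^ ((b.natAbs.primeFactors.filter (fun p => ¬ p ∣ m)).card + 1) * N3 ε m n := by
  classical
  set W := b.natAbs.primeFactors.filter (fun p => ¬ p ∣ m) with hW
  set I : Finset ℤ := Finset.Icc (-(b.natAbs : ℤ)) b.natAbs with hI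
  set S : Finset ℤ := I.filter (fun d => Squarefree d ∧ d ∣ b ∧
      (∀ p ∈ n.primeFactors, ¬ p ∣ m → jacobiSym d p = 1) ∧
      (∀ p ∈ n.primeFactors, p ∣ m → (¬ (p : ℤ) ∣ d → jacobiSym d p = 1) ∧
        ((p : ℤ) ∣ d → jacobiSym (b / d) p = 1))) with hS
  have hε1 : ∀ p : ℕ, p.Prime → p ∣ m → p ∣ n → ε p * ε p = 1 := by
    intro p hp hpm hpn
    rw [hε p hp hpm hpn, ← sq]
    apply jacobiSym.sq_one
    obtain ⟨h2, h3⟩ := h1m p hp hpm
    obtain ⟨k, hk⟩ := h2
    have hp0 : (p : ℤ) ≠ 0 := by exact_mod_cast hp.ne_zero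
    rw [hk, Int.mul_ediv_cancel_left _ hp0, Int.gcd_comm, ← Int.isCoprime_iff_gcd_eq_one]
    rw [Prime.coprime_iff_not_dvd (Nat.prime_iff_prime_int.mp hp)]
    intro h4
    apply h3
    rw [hk, sq]
    exact mul_dvd_mul_left _ h4
  refine ⟨S, ?_, ?_⟩
  · intro d h1 h2 h3 h3'
    rw [hS, Finset.mem_filter, hI, Finset.mem_Icc]
    have h4 : d.natAbs ≤ b.natAbs := Nat.le_of_dvd (Int.natAbs_pos.mpr hb) (Int.natAbs_dvd_natAbs.mpr h2)
    refine ⟨⟨?_, ?_⟩, h1, h2, h3, h3'⟩ <;> omega
  · -- the map to (sign, primes which do not divide m)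
    let f : ℤ → Bool × Finset ℕ := fun d => (decide (0 < d), d.natAbs.primeFactors.filter (fun p => ¬ p ∣ m))
    have himg : S.image f ⊆ (univ : Finset Bool) ×ˢ W.powerset := by
      intro z hz
      obtain ⟨d, hd, rfl⟩ := Finset.mem_image.mp hz
      obtain ⟨_, h1, h2, h3⟩ := Finset.mem_filter.mp hd
      rw [Finset.mem_product, Finset.mem_powerset]
      refine ⟨Finset.mem_univ _, ?_⟩
      exact Finset.filter_subset_filter _ (Nat.primeFactors_mono (Int.natAbs_dvd_natAbs.mpr h2)
        (Int.natAbs_pos.mpr hb).ne')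
    have hcard : (S.image f).card ≤ 2 ^ (W.card + 1) := by
      refine (Finset.card_le_card himg).trans ?_
      rw [Finset.card_product, Finset.card_powerset, Finset.card_univ, Fintype.card_bool, pow_succ]
      omega
    have hfib : ∀ z ∈ S.image f, (S.filter (fun d => f d = z)).card ≤ N3 ε m n := by
      rintro ⟨σ, T⟩ hz
      set g : ℤ := (if σ then 1 else -1) * ((∏ q ∈ T, q : ℕ) : ℤ) with hg
      -- decomposition
      have hdec : ∀ d ∈ S.filter (fun d => f d = (σ, T)),
          d = g * ((∏ q ∈ d.natAbs.primeFactors.filter (fun p => p ∣ m), q : ℕ) : ℤ) := by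
        intro d hd
        obtain ⟨hd1, hd2⟩ := Finset.mem_filter.mp hd
        obtain ⟨_, h1, h2, h3⟩ := Finset.mem_filter.mp hd1
        have e1 : decide (0 < d) = σ := (Prod.ext_iff.mp hd2).1
        have e2 : d.natAbs.primeFactors.filter (fun p => ¬ p ∣ m) = T := (Prod.ext_iff.mp hd2).2
        have hsf : Squarefree d.natAbs := Int.squarefree_natAbs.mpr h1
        have e3 : (∏ q ∈ T, q) * (∏ q ∈ d.natAbs.primeFactors.filter (fun p => p ∣ m), q) = d.natAbs := by
          rw [← e2, mul_comm, Finset.prod_filter_mul_prod_filter_not]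
          exact prod_pf hsf
        have e4 : d = (if σ then 1 else -1) * (d.natAbs : ℤ) := by
          rw [← e1]
          by_cases h0 : 0 < d
          · simp only [h0, decide_true, if_true]; omega
          · simp only [h0, decide_false, Bool.false_eq_true, if_false]; omega
        rw [hg, mul_assoc, ← Nat.cast_mul, e3]
        exact e4
      have hinj : Set.InjOn (fun d : ℤ => d.natAbs.primeFactors.filter (fun p => p ∣ m))
          (S.filter (fun d => f d = (σ, T)) : Finset ℤ) := by
        intro d hd d' hd' hh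
        have hh' : d.natAbs.primeFactors.filter (fun p => p ∣ m) =
          d'.natAbs.primeFactors.filter (fun p => p ∣ m) := hh
        rw [hdec d hd, hdec d' hd', hh']
      rw [← Finset.card_image_of_injOn hinj]
      apply card_fib3 ε m n hm hε1 (fun p => jacobiSym g p)
      · intro A hA
        obtain ⟨d, hd, rfl⟩ := Finset.mem_image.mp hA
        intro q hq
        obtain ⟨hq1, hq2⟩ := Finset.mem_filter.mp hq
        exact Nat.mem_primeFactors.mpr ⟨Nat.prime_of_mem_primeFactors hq1, hq2, hm.ne_zero⟩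
      · intro A hA
        obtain ⟨d, hd, rfl⟩ := Finset.mem_image.mp hA
        intro p hp
        have hdd := hdec d hd
        obtain ⟨hd1, _⟩ := Finset.mem_filter.mp hd
        obtain ⟨_, h1, h2, h3, h4⟩ := Finset.mem_filter.mp hd1
        have hp' := Nat.prime_of_mem_primeFactors hp
        set A := d.natAbs.primeFactors.filter (fun p => p ∣ m) with hAdef
        -- case `p ∉ A`
        have hcase : jacobiSym d p = 1 → p ∉ A → ∏ q ∈ A, lam ε p q = jacobiSym g p := by
          intro h5 h6
          have e1 : ∏ q ∈ A, lam ε p q = ∏ q ∈ A, jacobiSym (q : ℤ) p := by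
            apply Finset.prod_congr rfl
            intro q hq
            unfold lam
            rw [if_neg]
            rintro rfl
            exact h6 hq
          rw [e1, ← jac_prod]
          rw [hdd, jacobiSym.mul_left] at h5
          exact eq_of_mul_one h5
        show ∏ q ∈ A, lam ε p q = jacobiSym g p
        by_cases hpm : p ∣ m
        · by_cases hpd : (p : ℤ) ∣ d
          · -- `p ∈ A`
            have hpA : p ∈ A := by
              rw [hAdef, Finset.mem_filter]
              refine ⟨Nat.mem_primeFactors.mpr ⟨hp', ?_, ?_⟩, hpm⟩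
              · exact Int.natCast_dvd.mp hpd
              · exact Int.natAbs_ne_zero.mpr h1.ne_zero
            have h5 := (h4 p hp hpm).2 hpd
            set D : ℤ := ((∏ q ∈ A.erase p, q : ℕ) : ℤ) with hD
            have hAD : ((∏ q ∈ A, q : ℕ) : ℤ) = p * D := by
              have h6 := Finset.mul_prod_erase A (fun q => q) hpA
              rw [hD, ← Nat.cast_mul]
              exact congrArg _ h6.symm
            obtain ⟨k, hk⟩ := h2
            have hd0 : d ≠ 0 := h1.ne_zero
            have hp0 : (p : ℤ) ≠ 0 := by exact_mod_cast hp'.ne_zero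
            rw [hk, Int.mul_ediv_cancel_left _ hd0] at h5
            have hbp : b / p = g * D * k := by
              have : b = p * (g * D * k) := by rw [hk, hdd, hAD]; ring
              rw [this, Int.mul_ediv_cancel_left _ hp0]
            rw [← Finset.mul_prod_erase A _ hpA]
            have e1 : lam ε p p = ε p := by unfold lam; rw [if_pos rfl]
            have e2 : ∏ q ∈ A.erase p, lam ε p q = jacobiSym D p := by
              rw [hD, jac_prod]
              apply Finset.prod_congr rfl
              intro q hq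
              unfold lam
              rw [if_neg (Finset.ne_of_mem_erase hq)]
            have e3 : jacobiSym D p * jacobiSym D p = 1 := by
              rw [hD, jac_prod, ← Finset.prod_mul_distrib]
              apply Finset.prod_eq_one
              intro q hq
              apply jac_sq hp' _ (Finset.ne_of_mem_erase hq)
              exact Nat.prime_of_mem_primeFactors
                (Finset.mem_filter.mp (Finset.mem_of_mem_erase hq)).1
            rw [e1, e2, hε p hp' hpm (Nat.dvd_of_mem_primeFactors hp), hbp, jacobiSym.mul_left,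
              jacobiSym.mul_left, h5]
            linear_combination (jacobiSym g p) * e3
          · apply hcase ((h4 p hp hpm).1 hpd)
            intro h6
            apply hpd
            have := Nat.dvd_of_mem_primeFactors (Finset.mem_filter.mp h6).1
            exact Int.natCast_dvd.mpr this
        · apply hcase (h3 p hp hpm)
          intro h6
          exact hpm (Finset.mem_filter.mp h6).2
    calc S.card ≤ N3 ε m n * (S.image f).card := Finset.card_le_mul_card_image S _ hfib
      _ ≤ N3 ε m n * 2 ^ (W.card + 1) := Nat.mul_le_mul_left _ hcard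
      _ = _ := mul_comm _ _

end Pool.Agent.L7h56.IT
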