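import Mathlib
import Pool.Agent.L7h56.IS.Des
import Pool.Agent.L7h56.IT.DesE

/-! Project IT: descent by two-isogenies, `S_DES3`. -/

set_option autoImplicit false

namespace Pool.Agent.L7h56.IT

open WeierstrassCurve WeierstrassCurve.Affine Pool.Agent.V11306.CM Pool.Agent.L7h19.IS
open Pool.Agent.L7h19.IT Pool.Agent.L7h56.IS

theorem s_DES3 : S_DES3 := by
  intro a b m n ε ε' hb hc hm hn hms hns hmp hnp hεε
  classical
  have hbq : (b : ℚ) ≠ 0 := by exact_mod_cast hb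
  have hcq : (a : ℚ) ^ 2 - 4 * b ≠ 0 := by exact_mod_cast hc
  have hΔ : (E (a : ℚ) (b : ℚ)).Δ ≠ 0 := by
    rw [E_delta]
    exact mul_ne_zero (mul_ne_zero (by norm_num) (pow_ne_zero 2 hbq)) hcq
  have hΔ1 : (E (-2 * (a : ℚ)) ((a : ℚ) ^ 2 - 4 * b)).Δ ≠ 0 := by
    rw [E_delta]
    refine mul_ne_zero (mul_ne_zero (by norm_num) (pow_ne_zero 2 hcq)) ?_
    have : (-2 * (a : ℚ)) ^ 2 - 4 * ((a : ℚ) ^ 2 - 4 * b) = 16 * b := by ring
    rw [this]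
    exact mul_ne_zero (by norm_num) hbq
  have hΔ2 : (E (-2 * (-2 * (a : ℚ))) ((-2 * (a : ℚ)) ^ 2 - 4 * ((a : ℚ) ^ 2 - 4 * b))).Δ ≠ 0 := by
    rw [E_delta]
    have e1 : (-2 * (a : ℚ)) ^ 2 - 4 * ((a : ℚ) ^ 2 - 4 * b) = 16 * b := by ring
    have e2 : (-2 * (-2 * (a : ℚ))) ^ 2 - 4 * (16 * (b : ℚ)) = 16 * ((a : ℚ) ^ 2 - 4 * b) := by ring
    rw [e1, e2]
    exact mul_ne_zero (mul_ne_zero (by norm_num) (pow_ne_zero 2 (mul_ne_zero (by norm_num) hbq)))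
      (mul_ne_zero (by norm_num) hcq)
  have v1 : (1 : ℚ) ^ 2 ≠ 0 := by norm_num
  have v2 : (1 / 2 : ℚ) ^ 2 ≠ 0 := by norm_num
  have w1 : (-2 * (a : ℚ)) = (1 : ℚ) ^ 2 * (-2 * a) := by ring
  have w2 : ((a : ℚ) ^ 2 - 4 * b) = ((1 : ℚ) ^ 2) ^ 2 * (a ^ 2 - 4 * b) := by ring
  have w3 : (a : ℚ) = (1 / 2 : ℚ) ^ 2 * (-2 * (-2 * a)) := by ring
  have w4 : (b : ℚ) = ((1 / 2 : ℚ) ^ 2) ^ 2 * ((-2 * a) ^ 2 - 4 * (a ^ 2 - 4 * b)) := by ring
  have h20 : (2 : ℚ) ≠ 0 := two_ne_zero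
  have hodd : ∀ (k p : ℕ), Odd k → p ∣ k → Odd p := fun k p hk hp => Odd.of_dvd_nat hk hp
  obtain ⟨S, hS, hSc⟩ := exists_S3 b ε m n hb hms (fun p hp h => ⟨(hmp p hp h).1, (hmp p hp h).2.1⟩)
    (fun p hp h1 h2 => (hεε p hp h1 h2).1)
  obtain ⟨S', hS', hSc'⟩ := exists_S3 (a ^ 2 - 4 * b) ε' n m hc hns
    (fun p hp h => ⟨(hnp p hp h).1, (hnp p hp h).2.1⟩) (fun p hp h1 h2 => (hεε p hp h2 h1).2)
  have H1 := fun P => exists_cls3' a b hb (a : ℚ) (b : ℚ) rfl rfl P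
  have H2 := fun P => exists_cls3' (-2 * a) (a ^ 2 - 4 * b) hc (-2 * (a : ℚ)) ((a : ℚ) ^ 2 - 4 * b)
    (by push_cast; ring) (by push_cast; ring) P
  choose α hα1 hα2 hα3 hα4 hα5 using H1
  choose α' hβ1 hβ2 hβ3 hβ4 hβ5 using H2
  have key := rank_le (E (a : ℚ) (b : ℚ)).Point (E (-2 * (a : ℚ)) ((a : ℚ) ^ 2 - 4 * b)).Point
    (Pool.Agent.Q286.EQ.mordell_weil ℚ (E (a : ℚ) (b : ℚ)) hΔ)
    (psi (u := 1 / 2) hcq hΔ2 v2 w3 w4 hΔ) (psi (u := 1) hbq hΔ1 v1 w1 w2 hΔ1)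
    (psi_psi h20 hbq hcq hΔ hΔ1 hΔ2 v1 v2 w1 w2 w3 w4) S S' α α' ?_ ?_ ?_ ?_
  · exact key.trans (Nat.mul_le_mul hSc hSc')
  · intro P
    refine hS _ (hα1 P) (hα2 P) (fun p hp hpm => ?_) (fun p hp hpm => ?_)
    · have hp1 := Nat.prime_of_mem_primeFactors hp
      have hp2 := Nat.dvd_of_mem_primeFactors hp
      obtain ⟨h3, h4, h5⟩ := hnp p hp1 hp2
      exact hα4 P p hp1 (hodd n p hn hp2) h3 h4 (h5.resolve_left hpm)
    · have hp1 := Nat.prime_of_mem_primeFactors hp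
      have hp2 := Nat.dvd_of_mem_primeFactors hp
      obtain ⟨h3, h4, _⟩ := hmp p hp1 hpm
      have h5 := (hnp p hp1 hp2).1
      have hpa : (p : ℤ) ∣ a := by
        apply (Nat.prime_iff_prime_int.mp hp1).dvd_of_dvd_pow (n := 2)
        have : a ^ 2 = (a ^ 2 - 4 * b) + 4 * b := by ring
        rw [this]
        exact dvd_add h5 (h3.mul_left _)
      exact hα5 P p hp1 hpa h3 h4
  · intro R
    refine hS' _ (hβ1 R) (hβ2 R) (fun p hp hpn => ?_) (fun p hp hpn => ?_)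
    · have hp1 := Nat.prime_of_mem_primeFactors hp
      have hp2 := Nat.dvd_of_mem_primeFactors hp
      obtain ⟨h3, h4, h5⟩ := hmp p hp1 hp2
      have e1 : (-2 * a) ^ 2 - 4 * (a ^ 2 - 4 * b) = 16 * b := by ring
      have hop := hodd m p hm hp2
      refine hβ4 R p hp1 hop ?_ ?_ (h5.resolve_left hpn)
      · rw [e1]; exact h3.mul_left _
      · rw [e1]
        intro h6
        apply h4
        have hcop : IsCoprime ((p : ℤ) ^ 2) 16 := by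
          have h7 : Nat.Coprime (p ^ 2) 16 := by
            have : Nat.Coprime p 2 := hop.coprime_two_right
            rw [show 16 = 2 ^ 4 by norm_num]
            exact Nat.Coprime.pow 2 4 this
          exact_mod_cast Nat.isCoprime_iff_coprime.mpr h7
        exact hcop.dvd_of_dvd_mul_left h6
    · have hp1 := Nat.prime_of_mem_primeFactors hp
      have hp2 := Nat.dvd_of_mem_primeFactors hp
      obtain ⟨h3, _, _⟩ := hmp p hp1 hp2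
      obtain ⟨h5, h6, _⟩ := hnp p hp1 hpn
      have hpa : (p : ℤ) ∣ a := by
        apply (Nat.prime_iff_prime_int.mp hp1).dvd_of_dvd_pow (n := 2)
        have : a ^ 2 = (a ^ 2 - 4 * b) + 4 * b := by ring
        rw [this]
        exact dvd_add h5 (h3.mul_left _)
      exact hβ5 R p hp1 (hpa.mul_left _) h5 h6
  · intro P Q hPQ
    have h1 : IsSquare (fx (a : ℚ) (b : ℚ) P * fx (a : ℚ) (b : ℚ) Q) := by
      apply sq_mul_of (d := (α P : ℚ)) (by exact_mod_cast (hα1 P).ne_zero) (hα3 P)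
      rw [hPQ]
      exact hα3 Q
    obtain ⟨R, hR⟩ := psi_ker hcq hΔ2 v2 w3 w4 hΔ h20 (P - Q) (fx_sub hbq P Q h1)
    exact ⟨R, by rw [hR]; abel⟩
  · intro R R' hRR
    have h1 : IsSquare (fx (-2 * (a : ℚ)) ((a : ℚ) ^ 2 - 4 * b) R *
        fx (-2 * (a : ℚ)) ((a : ℚ) ^ 2 - 4 * b) R') := by
      apply sq_mul_of (d := (α' R : ℚ)) (by exact_mod_cast (hβ1 R).ne_zero) (hβ3 R)
      rw [hRR]
      exact hβ3 R'
    obtain ⟨T, hT⟩ := psi_ker hbq hΔ1 v1 w1 w2 hΔ1 h20 (R - R') (fx_sub hcq R R' h1)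
    exact ⟨T, by rw [hT]; abel⟩

end Pool.Agent.L7h56.IT
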