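import Pool.Agent.L7h65.IT.Bas

/-!
# Project IT: the expansion `S_EXP3`
-/

set_option autoImplicit false
set_option linter.all false

namespace Pool.Agent.L7h56.IT

open Finset Polynomial Pool.Agent.W262.RK Pool.Agent.W108.RK Pool.Agent.W762.RK2 Pool.Agent.L7h19.RP
  Pool.Agent.L7h19.IS Pool.Agent.L7h19.IT Pool.Agent.L7h65.IS Pool.Agent.L7h65.IT
open Pool.Agent.L7h19.RP.AT (gm)

variable {J : Type} [Fintype J] [DecidableEq J] {z y : ℕ}

/-- the conditions at a prime -/
def C3 (iB iC : J → Bool) (o : Option J) (m : Bool × Bool) : Prop :=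
  (m.1 = true → tm iB o = true) ∧ (m.2 = true → tm iC o = true)

instance (iB iC : J → Bool) (o : Option J) (m : Bool × Bool) : Decidable (C3 iB iC o m) := by
  unfold C3
  infer_instance

/-- the average of the diagonal symbols at a prime -/
noncomputable def al3 (m : Bool × Bool) : ℝ := if (m.1 && m.2) = true then 0 else 1

/-- the weight of a prime -/
noncomputable def wt3 (iC : J → Bool) (f : J → ℤ[X]) (c : ℕ) (p : ℕ) (o : Option J) : ℝ :=
  o.elim 1 fun j => gaw (f j) (if iC j = true then 1 / 2 else 1) c p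

/-- the labels -/
abbrev LA3 (J : Type) : Type := J × (Bool × Bool) × Bool

/-- the weights with the marks -/
noncomputable def TA3 (iB iC : J → Bool) (f : J → ℤ[X]) (c : ℕ) (p : ℕ) (o : Option J)
    (m : Bool × Bool) : ℝ :=
  o.elim (if m = (false, false) then 1 else 0) fun j =>
    ∑ h : Bool, if vA iB iC (j, m, h) then gaw (f j) (wA iC (j, m, h)) c p else 0

lemma TA3_eq (iB iC : J → Bool) (f : J → ℤ[X]) (c : ℕ) (p : ℕ) (o : Option J) (m : Bool × Bool) :
    TA3 iB iC f c p o m = if C3 iB iC o m then wt3 iC f c p o * al3 m else 0 := by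
  obtain ⟨v, x⟩ := m
  cases o with
  | none =>
    have hB : tm iB (none : Option J) = false := rfl
    have hC : tm iC (none : Option J) = false := rfl
    simp only [TA3, C3, wt3, al3, Option.elim, hB, hC, one_mul]
    cases v <;> cases x <;> simp
  | some j =>
    have hB : tm iB (some j) = iB j := rfl
    have hC : tm iC (some j) = iC j := rfl
    simp only [TA3, C3, wt3, al3, Option.elim, hB, hC, vA, wA, Fintype.sum_bool, gaw]
    rcases Bool.eq_false_or_eq_true (iB j) with hb | hb <;>
      rcases Bool.eq_false_or_eq_true (iC j) with hc | hc <;>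
      cases v <;> cases x <;> simp [hb, hc] <;> ring

/-- the symbols -/
noncomputable def GM3 (μ : Pr z y → Bool × Bool) : ℝ :=
  if ∃ p, (μ p).2 = true then OD (fun p => (μ p).1) (fun p => (μ p).2) else 0

lemma avg3 (θ : ℕ → ℤ) (B C v x : Pr z y → Bool)
    (h : ∀ p, (v p = true → B p = true) ∧ (x p = true → C p = true)) :
    (1 / 2 : ℝ) ^ (nb fun p => B p && C p).primeFactors.card *
      ∑ η : Pr z y → Bool, (if ∀ p, η p = true → (B p && C p) = true then
        DS (fun p => eE (Ts η) p * θ p) v x else 0) =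
      (∏ p : Pr z y, al3 (v p, x p)) * OD v x := by
  set g : Bool → Pr z y → ℝ := fun b p =>
    (if (v p && x p) = true then (if b = true then -1 else 1) * (θ p : ℝ) else 1) with hg
  have h1 : ∀ η : Pr z y → Bool, DS (fun p => eE (Ts η) p * θ p) v x =
      (∏ p, g (η p) p) * OD v x := by
    intro η
    rw [DS_split, hg]
    have e1 : ∀ p : Pr z y, (eE (Ts η) p : ℝ) = if η p = true then -1 else 1 := by
      intro p
      unfold eE
      by_cases hp : η p = true
      · rw [if_pos ((mem_Ts η p).2 hp), if_pos hp]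
        norm_num
      · rw [if_neg fun h => hp ((mem_Ts η p).1 h), if_neg hp]
        norm_num
    simp only [Int.cast_mul, e1]
  have h2 : ∑ η : Pr z y → Bool, (if ∀ p, η p = true → (B p && C p) = true then
        DS (fun p => eE (Ts η) p * θ p) v x else 0) =
      (∑ η : Pr z y → Bool, (if ∀ p, η p = true → (B p && C p) = true then
        ∏ p, g (η p) p else 0)) * OD v x := by
    rw [Finset.sum_mul]
    refine Finset.sum_congr rfl fun η _ => ?_
    rw [h1, ite_mul, zero_mul]
  rw [h2, ← mul_assoc, avg (fun p => B p && C p) g]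
  congr 1
  refine Finset.prod_congr rfl fun p _ => ?_
  obtain ⟨h3, h4⟩ := h p
  simp only [hg, al3]
  revert h3 h4
  cases B p <;> cases C p <;> cases v p <;> cases x p <;> simp

lemma lhs_term3 (iB iC : J → Bool) (f : J → ℤ[X]) (θ : ℕ → ℤ) (c : ℕ)
    (ξ : Pr z y → Option J) :
    ((1 / 2) ^ (PW iB iC (Dl ξ)).card * ∑ E ∈ (PW iB iC (Dl ξ)).powerset,
      R3 (fun p => eE E p * θ p) (pP iB (Dl ξ)) (pP iC (Dl ξ))) *
        ∏ j, gm (gaw (f j) 1 c) (Dl ξ j) =
      ∑ μ : Pr z y → Bool × Bool, (∏ p : Pr z y, TA3 iB iC f c p (ξ p) (μ p)) * GM3 μ := by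
  set B : Pr z y → Bool := fun p => tm iB (ξ p) with hB
  set C : Pr z y → Bool := fun p => tm iC (ξ p) with hC
  have hm : pP iB (Dl ξ) = nb B := pP_Dl iB ξ
  have hn : pP iC (Dl ξ) = nb C := pP_Dl iC ξ
  have hW : PW iB iC (Dl ξ) = (nb fun p => B p && C p).primeFactors := PW_Dl iB iC ξ
  -- the weights
  have hw : (∏ j, gm (gaw (f j) 1 c) (Dl ξ j)) * (∏ p : Pr z y, if C p = true then (1 / 2 : ℝ) else 1) =
      ∏ p : Pr z y, wt3 iC f c p (ξ p) := by
    rw [Pool.Agent.L7h19.RP.prod_gm (fun j => gaw (f j) 1 c) ξ, ← Finset.prod_mul_distrib]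
    refine Finset.prod_congr rfl fun p _ => ?_
    simp only [hC]
    cases hx : ξ p with
    | none => simp [tm, wt3]
    | some j =>
      simp only [tm, wt3, Option.elim]
      unfold gaw
      by_cases hc : iC j = true
      · simp only [hc, if_true]
        ring
      · simp only [hc, if_false, Bool.false_eq_true]
        ring
  rw [hm, hn, hW, sum_pw]
  have h1 : ∀ η : Pr z y → Bool,
      R3 (fun p => eE (Ts η) p * θ p) (nb B) (nb C) =
      (∏ p : Pr z y, if C p = true then (1 / 2 : ℝ) else 1) *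
      ∑ μ : Pr z y → Bool × Bool, if (∀ p, C3 iB iC (ξ p) (μ p)) ∧ (∃ p, (μ p).2 = true) then
        DS (fun p => eE (Ts η) p * θ p) (fun p => (μ p).1) (fun p => (μ p).2) else 0 := by
    intro η
    rw [R3_eq, sum_arr (fun v x => if ((∀ p, v p = true → B p = true) ∧
        (∀ p, x p = true → C p = true)) ∧ (∃ p, x p = true) then
          DS (fun p => eE (Ts η) p * θ p) v x else 0)]
    congr 1
    refine Finset.sum_congr rfl fun μ _ => ?_
    by_cases h3 : (∀ p, C3 iB iC (ξ p) (μ p)) ∧ (∃ p, (μ p).2 = true)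
    · rw [if_pos h3, if_pos ⟨⟨fun p => (h3.1 p).1, fun p => (h3.1 p).2⟩, h3.2⟩]
    · rw [if_neg h3, if_neg]
      intro h4
      exact h3 ⟨fun p => ⟨h4.1.1 p, h4.1.2 p⟩, h4.2⟩
  rw [Finset.sum_congr rfl fun η _ => if_congr Iff.rfl (h1 η) rfl]
  -- exchange the sums
  have h2 : ∑ η : Pr z y → Bool, (if ∀ p, η p = true → (B p && C p) = true then
      (∏ p : Pr z y, if C p = true then (1 / 2 : ℝ) else 1) *
      ∑ μ : Pr z y → Bool × Bool, (if (∀ p, C3 iB iC (ξ p) (μ p)) ∧ (∃ p, (μ p).2 = true) then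
        DS (fun p => eE (Ts η) p * θ p) (fun p => (μ p).1) (fun p => (μ p).2) else 0) else 0) =
      (∏ p : Pr z y, if C p = true then (1 / 2 : ℝ) else 1) *
      ∑ μ : Pr z y → Bool × Bool, if (∀ p, C3 iB iC (ξ p) (μ p)) ∧ (∃ p, (μ p).2 = true) then
        ∑ η : Pr z y → Bool, (if ∀ p, η p = true → (B p && C p) = true then
          DS (fun p => eE (Ts η) p * θ p) (fun p => (μ p).1) (fun p => (μ p).2) else 0) else 0 := by
    rw [Finset.mul_sum]
    have e1 : ∀ η : Pr z y → Bool, (if ∀ p, η p = true → (B p && C p) = true then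
      (∏ p : Pr z y, if C p = true then (1 / 2 : ℝ) else 1) *
      ∑ μ : Pr z y → Bool × Bool, (if (∀ p, C3 iB iC (ξ p) (μ p)) ∧ (∃ p, (μ p).2 = true) then
        DS (fun p => eE (Ts η) p * θ p) (fun p => (μ p).1) (fun p => (μ p).2) else 0) else 0) =
      ∑ μ : Pr z y → Bool × Bool, (∏ p : Pr z y, if C p = true then (1 / 2 : ℝ) else 1) *
        (if (∀ p, C3 iB iC (ξ p) (μ p)) ∧ (∃ p, (μ p).2 = true) then
          (if ∀ p, η p = true → (B p && C p) = true then
          DS (fun p => eE (Ts η) p * θ p) (fun p => (μ p).1) (fun p => (μ p).2) else 0) else 0) := by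
      intro η
      by_cases h3 : ∀ p, η p = true → (B p && C p) = true
      · rw [if_pos h3, Finset.mul_sum]
        refine Finset.sum_congr rfl fun μ _ => ?_
        rw [if_pos h3]
      · rw [if_neg h3]
        symm
        refine Finset.sum_eq_zero fun μ _ => ?_
        rw [if_neg h3, ite_self, mul_zero]
    rw [Finset.sum_congr rfl fun η _ => e1 η, Finset.sum_comm]
    refine Finset.sum_congr rfl fun μ _ => ?_
    rw [← Finset.mul_sum]
    congr 1
    by_cases h3 : (∀ p, C3 iB iC (ξ p) (μ p)) ∧ (∃ p, (μ p).2 = true)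
    · rw [if_pos h3]
      refine Finset.sum_congr rfl fun η _ => ?_
      rw [if_pos h3]
    · rw [if_neg h3]
      refine Finset.sum_eq_zero fun η _ => ?_
      rw [if_neg h3]
  rw [h2]
  have h3 : ∀ S R D W : ℝ, S * (R * D) * W = (W * R) * (S * D) := by
    intro S R D W
    ring
  rw [h3, hw, Finset.mul_sum, Finset.mul_sum]
  refine Finset.sum_congr rfl fun μ _ => ?_
  have h4 : ∏ p : Pr z y, TA3 iB iC f c p (ξ p) (μ p) = if ∀ p, C3 iB iC (ξ p) (μ p) then
      (∏ p : Pr z y, wt3 iC f c p (ξ p)) * ∏ p : Pr z y, al3 (μ p) else 0 := by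
    by_cases h5 : ∀ p, C3 iB iC (ξ p) (μ p)
    · rw [if_pos h5, ← Finset.prod_mul_distrib]
      refine Finset.prod_congr rfl fun p _ => ?_
      rw [TA3_eq, if_pos (h5 p)]
    · rw [if_neg h5]
      simp only [not_forall] at h5
      obtain ⟨p, hp⟩ := h5
      refine Finset.prod_eq_zero (mem_univ p) ?_
      rw [TA3_eq, if_neg hp]
  rw [h4]
  unfold GM3
  by_cases h5 : ∀ p, C3 iB iC (ξ p) (μ p)
  · rw [if_pos h5]
    by_cases h6 : ∃ p, (μ p).2 = true
    · rw [if_pos ⟨h5, h6⟩, if_pos h6]
      have h7 := avg3 θ B C (fun p => (μ p).1) (fun p => (μ p).2) h5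
      rw [h7]
      ring
    · rw [if_neg fun h => h6 h.2, if_neg h6]
      ring
  · rw [if_neg h5, if_neg fun h => h5 h.1]
    ring

/-! ### The right side -/

/-- the label and the marks -/
def fk3 (x : Option (LA3 J)) : Option J × (Bool × Bool) :=
  (x.map fun i => i.1, x.elim (false, false) fun i => i.2.1)

/-- the local weights -/
noncomputable def WA (iB iC : J → Bool) (f : J → ℤ[X]) (c : ℕ) (p : ℕ) (x : Option (LA3 J)) : ℝ :=
  x.elim 1 fun i => if vA iB iC i then gaw (f i.1) (wA iC i) c p else 0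

lemma fiber3 (iB iC : J → Bool) (f : J → ℤ[X]) (c : ℕ) (p : ℕ) (x : Option J × (Bool × Bool)) :
    ∑ u ∈ univ.filter (fun u : Option (LA3 J) => fk3 u = x), WA iB iC f c p u =
      TA3 iB iC f c p x.1 x.2 := by
  obtain ⟨x, ε⟩ := x
  rw [Finset.sum_filter, Fintype.sum_option]
  cases x with
  | none =>
    have h1 : ∑ i : LA3 J, (if fk3 (some i) = ((none : Option J), ε) then
        WA iB iC f c p (some i) else 0) = 0 := by
      refine Finset.sum_eq_zero fun i _ => if_neg ?_
      simp [fk3]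
    rw [h1, add_zero]
    simp only [fk3, Option.map_none, Option.elim, Prod.mk.injEq, true_and, WA, TA3]
    refine if_congr ?_ rfl rfl
    exact ⟨fun h => h.symm, fun h => h.symm⟩
  | some j =>
    have h0 : (if fk3 (none : Option (LA3 J)) = (some j, ε) then
        WA iB iC f c p (none : Option (LA3 J)) else 0) = 0 := by
      rw [if_neg]
      simp [fk3]
    rw [h0, zero_add]
    have h1 : ∀ F : LA3 J → ℝ, ∑ i : LA3 J, F i = ∑ j' : J, ∑ m : Bool × Bool, ∑ h : Bool, F (j', m, h) := by
      intro F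
      rw [Fintype.sum_prod_type]
      refine Finset.sum_congr rfl fun j' _ => ?_
      rw [Fintype.sum_prod_type]
    rw [h1, Finset.sum_eq_single j]
    · rw [Finset.sum_eq_single ε]
      · simp only [TA3, Option.elim, WA]
        refine Finset.sum_congr rfl fun h _ => ?_
        exact if_pos rfl
      · intro m _ hm
        refine Finset.sum_eq_zero fun h _ => if_neg fun h' => hm ?_
        simp only [fk3, Option.map_some, Option.elim, Prod.mk.injEq, Option.some.injEq] at h'
        exact h'.2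
      · intro h
        exact absurd (mem_univ _) h
    · intro j' _ hj
      refine Finset.sum_eq_zero fun m _ => Finset.sum_eq_zero fun h _ => if_neg fun h' => hj ?_
      simp only [fk3, Option.map_some, Option.elim, Prod.mk.injEq, Option.some.injEq] at h'
      exact h'.1
    · intro h
      exact absurd (mem_univ _) h

lemma Sym_eq3 (iB iC : J → Bool) (l : Pr z y → Option (LA3 J)) (hl : ∀ p i, l p = some i → vA iB iC i) :
    Pool.Agent.W262.RK.Sym LA (fun _ => 1) (Dl l) =
      OD (fun p => (fk3 (l p)).2.1) (fun p => (fk3 (l p)).2.2) := by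
  rw [Sym_Dl]
  have h1 : ∏ p : Pr z y, ((l p).elim 1 fun _ => Jr 1 p) = (1 : ℝ) := by
    refine Finset.prod_eq_one fun p _ => ?_
    cases l p with
    | none => rfl
    | some i => exact Jr_one_left _
  rw [h1, mul_one]
  unfold OD
  refine Finset.prod_congr rfl fun p _ => ?_
  refine Finset.prod_congr rfl fun q _ => ?_
  beta_reduce
  cases hq : l q with
  | none =>
    have e : Pool.Agent.W762.RK2.lk LA (none : Option (LA3 J)) (l p) = false := rfl
    rw [e]
    simp [fk3]
  | some i =>
    cases hp : l p with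
    | none =>
      have e : Pool.Agent.W762.RK2.lk LA (some i) (none : Option (LA3 J)) = false := rfl
      rw [e]
      simp [fk3]
    | some k =>
      have e : Pool.Agent.W762.RK2.lk LA (some i) (some k) = LA i k := rfl
      rw [e]
      simp only [fk3, Option.elim, LA]
      by_cases hqp : q = p
      · have hik : i = k := by
          rw [hqp, hp] at hq
          exact (Option.some.inj hq).symm
        simp [hqp, hik]
      · by_cases hik : i = k
        · have h2 := (hl p _ hp).2.2
          rw [hik]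
          simp only [hqp, ne_eq, not_true_eq_false, decide_false, Bool.false_and,
            Bool.false_eq_true, if_false, not_false_eq_true, decide_true, Bool.true_and]
          rw [if_neg]
          intro h3
          rw [Bool.and_eq_true] at h3
          exact h2 h3
        · simp only [hik, hqp, ne_eq, not_false_eq_true, decide_true, Bool.true_and]

lemma rhs_term3 (iB iC : J → Bool) (f : J → ℤ[X]) (c : ℕ) (l : Pr z y → Option (LA3 J)) :
    (if (∀ i, Dl l i ≠ 1 → vA iB iC i) ∧ (∃ i : LA3 J, i.2.1.2 = true ∧ Dl l i ≠ 1) then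
      (∏ i : LA3 J, gm (gaw (f i.1) (wA iC i) c) (Dl l i)) *
        Pool.Agent.W262.RK.Sym LA (fun _ => 1) (Dl l) else 0) =
      (∏ p : Pr z y, WA iB iC f c p (l p)) * GM3 fun p => (fk3 (l p)).2 := by
  have hn : ∀ i : LA3 J, Dl l i ≠ 1 ↔ ∃ p, l p = some i := by
    intro i
    unfold Dl
    rw [nb_ne_one]
    simp only [decide_eq_true_eq]
  have hA : (∀ i : LA3 J, Dl l i ≠ 1 → vA iB iC i) ↔ ∀ i : LA3 J, (∃ p, l p = some i) → vA iB iC i :=
    forall_congr' fun i => imp_congr (hn i) Iff.rfl
  have hc : (∃ i : LA3 J, i.2.1.2 = true ∧ Dl l i ≠ 1) ↔ ∃ p, (fk3 (l p)).2.2 = true := by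
    constructor
    · rintro ⟨i, h1, h2⟩
      obtain ⟨p, hp⟩ := (hn i).1 h2
      refine ⟨p, ?_⟩
      rw [hp]
      exact h1
    · rintro ⟨p, hp⟩
      cases hx : l p with
      | none =>
        rw [hx] at hp
        simp [fk3] at hp
      | some i =>
        rw [hx] at hp
        exact ⟨i, hp, (hn i).2 ⟨p, hx⟩⟩
  by_cases hv : ∀ i : LA3 J, (∃ p, l p = some i) → vA iB iC i
  · have hW : ∏ p : Pr z y, WA iB iC f c p (l p) =
        ∏ p : Pr z y, (l p).elim 1 fun i => gaw (f i.1) (wA iC i) c p := by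
      refine Finset.prod_congr rfl fun p _ => ?_
      cases hx : l p with
      | none => rfl
      | some i =>
        simp only [WA, Option.elim]
        rw [if_pos (hv i ⟨p, hx⟩)]
    rw [Pool.Agent.L7h19.RP.prod_gm (fun i : LA3 J => gaw (f i.1) (wA iC i) c) l,
      Sym_eq3 iB iC l fun p i h => hv i ⟨p, h⟩, hW]
    unfold GM3
    by_cases h : ∃ p, (fk3 (l p)).2.2 = true
    · rw [if_pos ⟨hA.2 hv, hc.2 h⟩, if_pos h]
    · rw [if_neg fun h' => h (hc.1 h'.2), if_neg h, mul_zero]
  · rw [if_neg fun h => hv (hA.1 h.1)]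
    simp only [not_forall] at hv
    obtain ⟨i, ⟨p, hp⟩, hi⟩ := hv
    have h0 : ∏ p : Pr z y, WA iB iC f c p (l p) = 0 := by
      refine Finset.prod_eq_zero (mem_univ p) ?_
      simp only [WA, hp, Option.elim]
      rw [if_neg hi]
    rw [h0, zero_mul]

/-- **S_EXP3** -/
theorem s_EXP3 : S_EXP3 := by
  classical
  intro J _ _ iB iC f θ c z y hBC _ _ _
  rw [sum_Tup fun s => ((1 / 2) ^ (PW iB iC s).card * ∑ E ∈ (PW iB iC s).powerset,
      R3 (fun p => eE E p * θ p) (pP iB s) (pP iC s)) *
        ∏ j, gm (gaw (f j) 1 c) (s j),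
    Finset.sum_filter,
    sum_Tup fun d : LA3 J → ℕ =>
      if (∀ i, d i ≠ 1 → vA iB iC i) ∧ (∃ i : LA3 J, i.2.1.2 = true ∧ d i ≠ 1) then
        (∏ i : LA3 J, gm (gaw (f i.1) (wA iC i) c) (d i)) *
          Pool.Agent.W262.RK.Sym LA (fun _ => 1) d else 0]
  rw [Finset.sum_congr rfl fun ξ _ => lhs_term3 iB iC f θ c ξ,
    Finset.sum_congr rfl fun l _ => rhs_term3 iB iC f c l]
  rw [← Finset.sum_fiberwise univ (fun (l : Pr z y → Option (LA3 J)) => fun p => fk3 (l p))]
  have h1 : ∀ ζ : Pr z y → Option J × (Bool × Bool),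
      ∑ l ∈ univ.filter (fun l : Pr z y → Option (LA3 J) => (fun p => fk3 (l p)) = ζ),
        (∏ p : Pr z y, WA iB iC f c p (l p)) * (GM3 fun p => (fk3 (l p)).2) =
      (∏ p : Pr z y, TA3 iB iC f c p (ζ p).1 (ζ p).2) * GM3 fun p => (ζ p).2 := by
    intro ζ
    have h2 : (univ.filter fun l : Pr z y → Option (LA3 J) => (fun p => fk3 (l p)) = ζ) =
        Fintype.piFinset (fun p => univ.filter (fun x : Option (LA3 J) => fk3 x = ζ p)) := by
      ext l
      simp only [Finset.mem_filter, Finset.mem_univ, true_and, Fintype.mem_piFinset, funext_iff]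
    rw [Finset.prod_congr rfl fun (p : Pr z y) _ => (fiber3 iB iC f c p (ζ p)).symm,
      Finset.prod_univ_sum, Finset.sum_mul, h2]
    refine Finset.sum_congr rfl fun l hl => ?_
    rw [Fintype.mem_piFinset] at hl
    have h3 : ∀ p, fk3 (l p) = ζ p := fun p => (Finset.mem_filter.1 (hl p)).2
    simp only [h3]
  rw [Finset.sum_congr rfl fun ζ _ => h1 ζ,
    sum_arr (fun (ξ : Pr z y → Option J) (μ : Pr z y → Bool × Bool) =>
      (∏ p : Pr z y, TA3 iB iC f c p (ξ p) (μ p)) * GM3 μ)]

end Pool.Agent.L7h56.IT
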